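import Mathlib
import Pool.Agent.Results.MP_67c2f3_gt.NotTCharacterized

/-!
# T-characterized subgroups are not transitive
-/

namespace Pool.Agent.Results.MP_24a371_gt.NotTransitive

open Filter Topology Pool.Agent.Results.MP_67c2f3_gt.NotTCharacterized

/-- For subgroups `H ≤ Y` of `X` (with subspace topologies): `H` is a T-characterized subgroup of
`Y`, that is, `H = s_v(Y)` for a T-sequence `v` in the character group of `Y`. -/
def TCharIn {X : Type*} [AddCommGroup X] [TopologicalSpace X] (H Y : AddSubgroup X) : Prop :=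
  H ≤ Y ∧ ∃ v : ℕ → Chars Y, IsTSequence v ∧
    ∀ y : Y, (y : X) ∈ H ↔ Tendsto (fun n => v n y) atTop (𝓝 0)

/-- For subgroups `H ≤ Y` of `X`: `H` is dually embedded in `Y`, that is, every character of `H`
extends to a character of `Y`. -/
def DuallyEmbeddedIn {X : Type*} [AddCommGroup X] [TopologicalSpace X] (H Y : AddSubgroup X) :
    Prop :=
  ∀ χ : Chars H, ∃ ψ : Chars Y, ∀ (x : X) (hx : x ∈ H) (hy : x ∈ Y), ψ ⟨x, hy⟩ = χ ⟨x, hx⟩

/-- A criterion for T-sequences. -/
theorem isTSequence_of_dual {A T : Type*} [AddCommGroup A] [AddCommGroup T] (v : ℕ → A)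
    (h2 : ∀ n, 2 • v n = 0) (f : ℕ → A →+ T) (h0 : ∀ k n, n ≠ k → f k (v n) = 0)
    (h1 : ∀ k, f k (v k) ≠ 0) : IsTSequence v := by
  classical
  let W : ℕ → AddSubgroup A := fun m => AddSubgroup.closure (v '' Set.Ici m)
  have hrep : ∀ w ∈ W 0, ∃ F : Finset ℕ, w = ∑ n ∈ F, v n := by
    intro w hw
    have hself : ∀ F : Finset ℕ, (∑ n ∈ F, v n) + ∑ n ∈ F, v n = 0 := by
      intro F
      rw [← two_nsmul, Finset.smul_sum]
      exact Finset.sum_eq_zero fun n _ => h2 n
    induction hw using AddSubgroup.closure_induction with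
    | mem x hx =>
      obtain ⟨n, -, rfl⟩ := hx
      exact ⟨{n}, by simp⟩
    | zero => exact ⟨∅, by simp⟩
    | neg x _ ih =>
      obtain ⟨F, rfl⟩ := ih
      exact ⟨F, by rw [neg_eq_iff_add_eq_zero]; exact hself F⟩
    | add x y _ _ ihx ihy =>
      obtain ⟨F, rfl⟩ := ihx
      obtain ⟨F', rfl⟩ := ihy
      refine ⟨symmDiff F F', ?_⟩
      have e1 : ∑ n ∈ F, v n = ∑ n ∈ F \ F', v n + ∑ n ∈ F ∩ F', v n := by
        rw [← Finset.sum_union (Finset.disjoint_sdiff_inter F F'), Finset.sdiff_union_inter]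
      have e2 : ∑ n ∈ F', v n = ∑ n ∈ F' \ F, v n + ∑ n ∈ F ∩ F', v n := by
        rw [Finset.inter_comm F F', ← Finset.sum_union (Finset.disjoint_sdiff_inter F' F),
          Finset.sdiff_union_inter]
      have e3 : ∑ n ∈ symmDiff F F', v n = ∑ n ∈ F \ F', v n + ∑ n ∈ F' \ F, v n := by
        have hdis : Disjoint (F \ F') (F' \ F) := disjoint_sdiff_sdiff
        rw [← Finset.sum_union hdis]
        rfl
      rw [e1, e2, e3]
      calc _ = ∑ n ∈ F \ F', v n + ∑ n ∈ F' \ F, v n +
          (∑ n ∈ F ∩ F', v n + ∑ n ∈ F ∩ F', v n) := by abel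
        _ = _ := by rw [hself, add_zero]
  have hker : ∀ (k m : ℕ), k < m → ∀ w ∈ W m, f k w = 0 := by
    intro k m hkm w hw
    have : W m ≤ (f k).ker := by
      rw [AddSubgroup.closure_le]
      rintro _ ⟨n, hn, rfl⟩
      have hn : m ≤ n := hn
      exact h0 k n (by omega)
    exact this hw
  have hinter : ∀ w, (∀ m, w ∈ W m) → w = 0 := by
    intro w hw
    obtain ⟨F, rfl⟩ := hrep w (hw 0)
    rcases F.eq_empty_or_nonempty with rfl | ⟨k, hk⟩
    · simp
    · exfalso
      have e := hker k (k + 1) (by omega) _ (hw (k + 1))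
      rw [map_sum, Finset.sum_eq_single k (fun n _ hn => h0 k n hn)
        (fun h => absurd hk h)] at e
      exact h1 k e
  -- the topology
  let τ : ∀ m, TopologicalSpace (A ⧸ W m) := fun _ => ⊥
  have : ∀ m, DiscreteTopology (A ⧸ W m) := fun _ => ⟨rfl⟩
  let Ψ : A →+ (∀ m, A ⧸ W m) :=
    { toFun := fun a m => QuotientAddGroup.mk a
      map_zero' := rfl
      map_add' := fun _ _ => rfl }
  have hΨ : Function.Injective Ψ := by
    rw [injective_iff_map_eq_zero]
    intro a ha
    refine hinter a fun m => ?_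
    have := congrFun ha m
    exact (QuotientAddGroup.eq_zero_iff a).1 this
  refine ⟨TopologicalSpace.induced Ψ inferInstance, topologicalAddGroup_induced Ψ, ?_, ?_⟩
  · exact @T2Space.of_injective_continuous A (∀ m, A ⧸ W m)
      (TopologicalSpace.induced Ψ inferInstance) _ _ Ψ hΨ continuous_induced_dom
  · rw [nhds_induced, tendsto_comap_iff, map_zero, tendsto_pi_nhds]
    intro m
    refine tendsto_const_nhds.congr' ?_
    filter_upwards [eventually_ge_atTop m] with n hn
    symm
    exact (QuotientAddGroup.eq_zero_iff (v n)).2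
      (AddSubgroup.subset_closure (Set.mem_image_of_mem v hn))

/-- If `2 y₁ = y₀`, `2 y₀ = 0` and `2 y ∈ {0, y₀}` for all `y`, then each T-sequence of
characters is eventually trivial at `y₀`. -/
theorem eventually_zero {Y : Type*} [AddCommGroup Y] [TopologicalSpace Y] (y₀ y₁ : Y)
    (hy₀ : 2 • y₀ = 0) (hy₁ : 2 • y₁ = y₀) (h : ∀ y : Y, 2 • y = 0 ∨ 2 • y = y₀)
    (v : ℕ → Chars Y) (hT : IsTSequence v) : ∀ᶠ n in atTop, v n y₀ = 0 := by
  obtain ⟨t, _, ht2, hv⟩ := hT
  have htwo : ∀ n, (2 : ℕ) • (v n y₀) = 0 := by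
    intro n
    rw [← map_nsmul, hy₀, map_zero]
  have hval : ∀ n (x : Y), ((2 : ℕ) • v n) x = v n ((2 : ℕ) • x) := by
    intro n x
    rw [map_nsmul, two_nsmul, two_nsmul]; rfl
  have hdbl : Tendsto (fun n => (2 : ℕ) • v n) atTop (@nhds _ t 0) := by
    have := hv.add hv
    simpa [two_nsmul] using this
  by_contra hne
  obtain ⟨n₀, hn₀⟩ := (Filter.not_eventually.1 hne).exists
  have hw : (2 : ℕ) • v n₀ ≠ 0 := by
    intro h0
    have := hval n₀ y₁
    rw [h0, hy₁] at this
    exact hn₀ this.symm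
  have hcl : {(2 : ℕ) • v n₀}ᶜ ∈ (@nhds _ t 0) :=
    (isOpen_compl_singleton (X := Chars Y)).mem_nhds (fun h => hw (by simpa using h.symm))
  have hfr : ∃ᶠ n in atTop, (2 : ℕ) • v n = (2 : ℕ) • v n₀ := by
    refine (Filter.not_eventually.1 hne).mono fun n hn => ?_
    ext x
    rw [hval, hval]
    rcases h x with hx | hx
    · rw [hx, map_zero, map_zero]
    · rw [hx, unique_order_two (htwo n) (htwo n₀) hn hn₀]
  obtain ⟨n, hn1, hn2⟩ := (hfr.and_eventually (hdbl.eventually hcl)).exists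
  exact hn2 hn1

/-- `X₁ = FinSupp × {0, 2}`. -/
def H2 : AddSubgroup X4 where
  carrier := {x | 2 • x.2 = 0}
  zero_mem' := by simp
  add_mem' := fun {a b} ha hb => by
    change 2 • (a.2 + b.2) = 0
    rw [smul_add, ha, hb, add_zero]
  neg_mem' := fun {a} ha => by
    change 2 • (-a.2) = 0
    rw [smul_neg, ha, neg_zero]

theorem mem_H2 {x : X4} : x ∈ H2 ↔ 2 • x.2 = 0 := Iff.rfl

theorem H4_le_H2 : H4 ≤ H2 := by
  intro x hx
  have hx : x.2 = 0 := hx
  rw [mem_H2, hx, smul_zero]

/-- the `n`-th unit vector. -/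
def unitVec (n : ℕ) : FinSupp :=
  ⟨Pi.single n 1, (Set.finite_singleton n).subset Pi.support_single_subset⟩

theorem unitVec_apply (n k : ℕ) : (unitVec n : ℕ → ZMod 2) k = if k = n then 1 else 0 := by
  change (Pi.single n 1 : ℕ → ZMod 2) k = _
  rw [Pi.single_apply]

/-- The characters `(a, b) ↦ a_n / 2 + c b / 4` of subgroups of `X4`. -/
noncomputable def ch (Y : AddSubgroup X4) (c : ZMod 4) (n : ℕ) : Chars Y where
  toFun y := ZMod.toAddCircle (((y : X4).1 : ℕ → ZMod 2) n) + ZMod.toAddCircle (c * (y : X4).2)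
  map_zero' := by simp
  map_add' x y := by simp [mul_add]; abel
  continuous_toFun := by
    have h1 : Continuous fun y : Y => ((y : X4).1 : ℕ → ZMod 2) n :=
      (continuous_apply n).comp
        (continuous_subtype_val.comp (continuous_fst.comp continuous_subtype_val))
    have h2 : Continuous fun y : Y => (y : X4).2 := continuous_snd.comp continuous_subtype_val
    have h3 : Continuous (ZMod.toAddCircle : ZMod 2 → UnitAddCircle) :=
      continuous_of_discreteTopology
    have h4 : Continuous (fun z : ZMod 4 => (ZMod.toAddCircle (c * z) : UnitAddCircle)) :=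
      continuous_of_discreteTopology
    exact (h3.comp h1).add (h4.comp h2)

theorem ch_apply (Y : AddSubgroup X4) (c : ZMod 4) (n : ℕ) (y : Y) :
    ch Y c n y = ZMod.toAddCircle (((y : X4).1 : ℕ → ZMod 2) n) +
      ZMod.toAddCircle (c * (y : X4).2) := rfl

theorem tendsto_ch (Y : AddSubgroup X4) (c : ZMod 4) (y : Y) :
    Tendsto (fun n => ch Y c n y) atTop (𝓝 0) ↔ c * (y : X4).2 = 0 := by
  have hev : ∀ᶠ n in atTop, ch Y c n y = ZMod.toAddCircle (c * (y : X4).2) := by
    have hfin : (Function.support ((y : X4).1 : ℕ → ZMod 2)).Finite := (y : X4).1.2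
    obtain ⟨N, hN⟩ := hfin.bddAbove
    filter_upwards [eventually_gt_atTop N] with n hn
    have : ((y : X4).1 : ℕ → ZMod 2) n = 0 := by
      by_contra hne
      exact absurd (hN hne) (not_le.2 hn)
    rw [ch_apply, this, map_zero, zero_add]
  rw [tendsto_congr' hev, tendsto_const_nhds_iff, ZMod.toAddCircle_eq_zero]

theorem tseq_ch (Y : AddSubgroup X4) (hY : H4 ≤ Y) (c : ZMod 4)
    (hc : ∀ y : Y, 2 • (c * (y : X4).2) = 0) : IsTSequence (ch Y c) := by
  have hmem : ∀ n, ((unitVec n, 0) : X4) ∈ Y := fun n => hY rfl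
  let f : ℕ → Chars Y →+ UnitAddCircle := fun k =>
    { toFun := fun χ => χ ⟨(unitVec k, 0), hmem k⟩
      map_zero' := rfl
      map_add' := fun _ _ => rfl }
  refine isTSequence_of_dual (ch Y c) ?_ f ?_ ?_
  · intro n
    ext y
    rw [two_nsmul]
    change ch Y c n y + ch Y c n y = 0
    rw [← two_nsmul, ch_apply, smul_add, ← map_nsmul, ← map_nsmul, hc, map_zero, add_zero]
    have : ∀ z : ZMod 2, 2 • z = 0 := by decide
    rw [this, map_zero]
  · intro k n hnk
    change ch Y c n ⟨(unitVec k, 0), hmem k⟩ = 0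
    rw [ch_apply, unitVec_apply, if_neg hnk]
    simp
  · intro k
    change ch Y c k ⟨(unitVec k, 0), hmem k⟩ ≠ 0
    rw [ch_apply, unitVec_apply, if_pos rfl]
    simp only [mul_zero, map_zero, add_zero]
    rw [Ne, ZMod.toAddCircle_eq_zero]
    decide

theorem two_smul_two_mul (z : ZMod 4) : 2 • (2 * z) = 0 := by
  revert z; decide

theorem char01 : TCharIn H4 H2 := by
  refine ⟨H4_le_H2, ch H2 1, tseq_ch H2 H4_le_H2 1 ?_, fun y => ?_⟩
  · intro y
    rw [one_mul]
    exact y.2
  · rw [tendsto_ch, one_mul]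
    rfl

theorem char12 : TCharIn H2 ⊤ := by
  refine ⟨le_top, ch ⊤ 2, tseq_ch ⊤ le_top 2 (fun y => two_smul_two_mul _), fun y => ?_⟩
  rw [tendsto_ch, mem_H2, nsmul_eq_mul]
  rfl

theorem not_char02 : ¬ TCharIn H4 ⊤ := by
  rintro ⟨-, v, hT, hv⟩
  have h := eventually_zero (Y := (⊤ : AddSubgroup X4)) ⟨(0, 2), trivial⟩ ⟨(0, 1), trivial⟩
    (by
      apply Subtype.ext
      refine Prod.ext (by simp) ?_
      change (2 : ℕ) • (2 : ZMod 4) = 0
      decide)
    (by
      apply Subtype.ext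
      refine Prod.ext (by simp) ?_
      change (2 : ℕ) • (1 : ZMod 4) = 2
      decide)
    (by
      rintro ⟨⟨a, b⟩, -⟩
      have hall : ∀ b : ZMod 4, 2 • b = 0 ∨ 2 • b = 2 := by decide
      have hb := hall b
      rcases hb with hb | hb
      · left
        apply Subtype.ext
        exact Prod.ext (two_nsmul_fin a) hb
      · right
        apply Subtype.ext
        exact Prod.ext (two_nsmul_fin a) hb) v hT
  have hmem : ((0, 2) : X4) ∈ H4 := by
    refine (hv ⟨(0, 2), trivial⟩).2 (tendsto_const_nhds.congr' ?_)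
    filter_upwards [h] with n hn using hn.symm
  have : (2 : ZMod 4) = 0 := hmem
  exact absurd this (by decide)

theorem dually : DuallyEmbeddedIn H2 ⊤ := by
  intro χ
  -- a quarter
  have hmem2 : ((0, 2) : X4) ∈ H2 := by
    rw [mem_H2]
    change 2 • (2 : ZMod 4) = 0
    decide
  obtain ⟨r, hr⟩ : ∃ r : ℝ, ((r : ℝ) : UnitAddCircle) = χ ⟨(0, 2), hmem2⟩ :=
    QuotientAddGroup.mk_surjective _
  let c : UnitAddCircle := ((r / 2 : ℝ) : UnitAddCircle)
  have hc2 : 2 • c = χ ⟨(0, 2), hmem2⟩ := by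
    rw [← hr, two_nsmul, ← AddCircle.coe_add, add_halves]
  have hc4 : (4 : ℤ) • c = 0 := by
    have h1 : (4 : ℤ) • c = 2 • (2 • c) := by
      rw [smul_smul]
      norm_cast
    rw [h1, hc2, ← map_nsmul]
    have : (2 : ℕ) • (⟨(0, 2), hmem2⟩ : H2) = 0 := by
      apply Subtype.ext
      refine Prod.ext (by simp) ?_
      change (2 : ℕ) • (2 : ZMod 4) = 0
      decide
    rw [this, map_zero]
  let L : ZMod 4 →+ UnitAddCircle := ZMod.lift 4 ⟨zmultiplesHom UnitAddCircle c, by simpa using hc4⟩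
  have hL1 : L 1 = c := by
    have := ZMod.lift_coe 4 (⟨zmultiplesHom UnitAddCircle c, by simpa using hc4⟩ :
      {f : ℤ →+ UnitAddCircle // f (4 : ℕ) = 0}) 1
    simpa using this
  have hmemA : ∀ a : FinSupp, ((a, 0) : X4) ∈ H2 := fun a => by
    rw [mem_H2]
    exact smul_zero 2
  let ψ : Chars (⊤ : AddSubgroup X4) :=
    { toFun := fun y => χ ⟨((y : X4).1, 0), hmemA _⟩ + L (y : X4).2
      map_zero' := by
        change χ ⟨(0, 0), _⟩ + L 0 = 0
        rw [map_zero, add_zero]
        exact map_zero χ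
      map_add' := fun x y => by
        have h1 : (⟨(((x + y : (⊤ : AddSubgroup X4)) : X4).1, 0), hmemA _⟩ : H2) =
            ⟨((x : X4).1, 0), hmemA _⟩ + ⟨((y : X4).1, 0), hmemA _⟩ := by
          apply Subtype.ext
          refine Prod.ext rfl ?_
          change (0 : ZMod 4) = 0 + 0
          simp
        have h2 : ((x + y : (⊤ : AddSubgroup X4)) : X4).2 = (x : X4).2 + (y : X4).2 := rfl
        rw [h1, h2, map_add, map_add]
        abel
      continuous_toFun := by
        refine Continuous.add (χ.continuous_toFun.comp ?_)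
          ((continuous_of_discreteTopology (f := L)).comp
            (continuous_snd.comp continuous_subtype_val))
        exact Continuous.subtype_mk
          ((continuous_fst.comp continuous_subtype_val).prodMk continuous_const) _ }
  refine ⟨ψ, ?_⟩
  rintro ⟨a, b⟩ hx -
  change χ ⟨(a, 0), hmemA _⟩ + L b = χ ⟨(a, b), hx⟩
  have hb : b = 0 ∨ b = 2 := by
    have hx' : 2 • b = 0 := hx
    have hall : ∀ b : ZMod 4, 2 • b = 0 → b = 0 ∨ b = 2 := by decide
    exact hall b hx'
  rcases hb with rfl | rfl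
  · rw [map_zero, add_zero]
  · have h1 : L 2 = χ ⟨(0, 2), hmem2⟩ := by
      have h2 : (2 : ZMod 4) = 2 • 1 := by decide
      have h3 : L 2 = 2 • L 1 := by
        rw [← map_nsmul]
        exact congrArg L h2
      rw [h3, hL1, hc2]
    rw [h1, ← map_add]
    congr 1
    apply Subtype.ext
    refine Prod.ext ?_ ?_
    · change a + 0 = a
      rw [add_zero]
    · change (0 : ZMod 4) + 2 = 2
      rw [zero_add]

/-- **Q1 is false**: a Hausdorff topological abelian group `X` with subgroups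
`X₀ ≤ X₁ ≤ X₂` such that `X₁` is dually embedded in `X₂`, `X₀` is T-characterized in `X₁`,
`X₁` is T-characterized in `X₂`, but `X₀` is not T-characterized in `X₂`. -/
theorem result : ∃ (X : Type) (_ : AddCommGroup X) (_ : TopologicalSpace X)
    (_ : IsTopologicalAddGroup X) (_ : T2Space X) (X₀ X₁ X₂ : AddSubgroup X),
    DuallyEmbeddedIn X₁ X₂ ∧ TCharIn X₀ X₁ ∧ TCharIn X₁ X₂ ∧ X₀ ≤ X₂ ∧ ¬ TCharIn X₀ X₂ :=
  ⟨X4, inferInstance, inferInstance, inferInstance, inferInstance, H4, H2, ⊤, dually, char01,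
    char12, le_top, not_char02⟩

end Pool.Agent.Results.MP_24a371_gt.NotTransitive
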